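import Pool.Agent.H30.EE.TargetsH

/-!
# The degree of a subspace does not depend on the basis
-/

set_option autoImplicit false

namespace Pool.Agent.H1.EE

open SC Pool.Agent.H27.LV Pool.Agent.H30.EE

theorem pf_DGB (_hMO : T_MO) (hHG : T_HG) (hCBM : T_CBM) : T_DGB := by
  classical
  intro k K _ _ _ _ _ _ htr ι _ m u hu
  have : Fintype ι := Fintype.ofFinite ι
  have hfr : Module.finrank K (Submodule.span K (Set.range u)) = m := by
    rw [finrank_span_eq_card hu, Fintype.card_fin]
  have key : ∀ (m' : ℕ) (b : Module.Basis (Fin m') K (Submodule.span K (Set.range u))),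
      m' = m → hgt k (mnr fun a => ((b a : Submodule.span K (Set.range u)) : ι → K)) =
        hgt k (mnr u) := by
    rintro m' b rfl
    have h1 : ∀ a, ∃ c : Fin m' → K, ∑ i, c i • u i =
        ((b a : Submodule.span K (Set.range u)) : ι → K) := fun a =>
      (Submodule.mem_span_range_iff_exists_fun K).1 (b a).2
    choose A hA using h1
    have h2 : (fun a => ((b a : Submodule.span K (Set.range u)) : ι → K)) =
        fun a i => ∑ b, A a b * u b i := by
      funext a i
      rw [← hA a, Finset.sum_apply]
      rfl
    have h3 := (hCBM K m' ι u).2 (Matrix.of A)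
    have h4 : mnr (fun a => ((b a : Submodule.span K (Set.range u)) : ι → K)) =
        (Matrix.of A).det • mnr u := by
      rw [h2]
      exact h3
    have h5 : LinearIndependent K fun a => ((b a : Submodule.span K (Set.range u)) : ι → K) := by
      have := b.linearIndependent.map' (Submodule.subtype _) (Submodule.ker_subtype _)
      exact this
    have h6 := ((hCBM K m' ι _).1).1 h5
    have h7 : (Matrix.of A).det ≠ 0 := by
      intro h0
      rw [h4, h0, zero_smul] at h6
      exact h6 rfl
    rw [h4]
    exact (hHG k K htr (Fin m' → ι) (mnr u)).2.2.1 _ h7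
  unfold dg
  rw [key _ _ hfr]

end Pool.Agent.H1.EE
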