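import Pool.Agent.H30.EE.TargetsH
import Pool.Agent.H27.LV.Curve

/-!
# Primitive families are saturated, and conversely
-/

set_option autoImplicit false

namespace Pool.Agent.H1.EE

open SC Pool.Agent.H27.LV Pool.Agent.H30.EE

variable {k K : Type} [Field k] [Field K] [Algebra k K]

lemma ge_prod (v : DV k K) {ι : Type*} (s : Finset ι) (f : ι → K)
    (h : ∀ i ∈ s, ge v 0 (f i)) : ge v 0 (∏ i ∈ s, f i) := by
  classical
  induction s using Finset.induction_on with
  | empty => rw [Finset.prod_empty]; exact ge_one v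
  | insert a s ha ih =>
    rw [Finset.prod_insert ha]
    have := (h a (Finset.mem_insert_self _ _)).mul
      (ih fun i hi => h i (Finset.mem_insert_of_mem hi))
    rwa [add_zero] at this

lemma ge_prod_sub (v : DV k K) {ι : Type*} (s : Finset ι) (f g : ι → K)
    (hf : ∀ i ∈ s, ge v 0 (f i)) (hg : ∀ i ∈ s, ge v 0 (g i))
    (h : ∀ i ∈ s, ge v 1 (f i - g i)) : ge v 1 (∏ i ∈ s, f i - ∏ i ∈ s, g i) := by
  classical
  induction s using Finset.induction_on with
  | empty => rw [Finset.prod_empty, Finset.prod_empty, sub_self]; exact ge_zero v 1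
  | insert a s ha ih =>
    rw [Finset.prod_insert ha, Finset.prod_insert ha]
    have h1 := ih (fun i hi => hf i (Finset.mem_insert_of_mem hi))
      (fun i hi => hg i (Finset.mem_insert_of_mem hi))
      (fun i hi => h i (Finset.mem_insert_of_mem hi))
    have h2 : f a * ∏ i ∈ s, f i - g a * ∏ i ∈ s, g i =
        f a * (∏ i ∈ s, f i - ∏ i ∈ s, g i) + (f a - g a) * ∏ i ∈ s, g i := by ring
    rw [h2]
    have h3 := (hf a (Finset.mem_insert_self _ _)).mul h1
    have h4 := (h a (Finset.mem_insert_self _ _)).mul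
      (ge_prod v s g fun i hi => hg i (Finset.mem_insert_of_mem hi))
    rw [zero_add] at h3
    rw [add_zero] at h4
    exact h3.add h4

lemma ge_sign (v : DV k K) {n : Type} [Fintype n] [DecidableEq n] (σ : Equiv.Perm n) :
    ge v 0 (((Equiv.Perm.sign σ : ℤˣ) : ℤ) : K) := by
  rcases Int.units_eq_one_or (Equiv.Perm.sign σ) with h | h
  · rw [h]
    simpa using ge_one v
  · rw [h]
    simpa using (ge_one v).neg

lemma ge_det (v : DV k K) {n : Type} [Fintype n] [DecidableEq n] (A : Matrix n n K)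
    (h : ∀ i j, ge v 0 (A i j)) : ge v 0 A.det := by
  rw [Matrix.det_apply']
  refine ge_sum v _ _ 0 fun σ _ => ?_
  have := (ge_sign v σ).mul (ge_prod v Finset.univ (fun i => A (σ i) i) fun i _ => h _ _)
  rwa [add_zero] at this

lemma ge_det_sub (v : DV k K) {n : Type} [Fintype n] [DecidableEq n] (A B : Matrix n n K)
    (hA : ∀ i j, ge v 0 (A i j)) (hB : ∀ i j, ge v 0 (B i j))
    (h : ∀ i j, ge v 1 (A i j - B i j)) : ge v 1 (A.det - B.det) := by
  rw [Matrix.det_apply', Matrix.det_apply', ← Finset.sum_sub_distrib]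
  refine ge_sum v _ _ 1 fun σ _ => ?_
  rw [← mul_sub]
  have := (ge_sign v σ).mul (ge_prod_sub v Finset.univ (fun i => A (σ i) i)
    (fun i => B (σ i) i) (fun i _ => hA _ _) (fun i _ => hB _ _) fun i _ => h _ _)
  rwa [zero_add] at this

lemma ge_adj (v : DV k K) {n : Type} [Fintype n] [DecidableEq n] (A : Matrix n n K)
    (h : ∀ i j, ge v 0 (A i j)) (i j : n) : ge v 0 (A.adjugate i j) := by
  rw [Matrix.adjugate_apply]
  refine ge_det v _ fun a b => ?_
  rw [Matrix.updateRow_apply]
  split_ifs with h1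
  · by_cases h2 : b = i
    · rw [h2, Pi.single_eq_same]
      exact ge_one v
    · rw [Pi.single_eq_of_ne h2]
      exact ge_zero v 0
  · exact h a b

lemma ge_of_mul (v : DV k K) {x y : K} (hy : y ≠ 0) (h0 : v.ord y = 0) (h : ge v 0 (x * y)) :
    ge v 0 x := by
  by_cases hx : x = 0
  · exact Or.inl hx
  rcases h with h | h
  · exact absurd h (mul_ne_zero hx hy)
  · right
    rwa [v.ord_mul' hx hy, h0, add_zero] at h

lemma q1_of_prm (hMO : T_MO) (v : DV k K) {ι : Type} [Finite ι] {m : ℕ} {u : Fin m → ι → K}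
    (hP : Prm v u) (c : Fin m → K) (hc : ∀ i, ge v 0 (∑ a, c a * u a i)) (a : Fin m) :
    ge v 0 (c a) := by
  obtain ⟨-, ⟨J, hJ, hJo⟩, -⟩ := (hMO k K v (Fin m → ι) (mnr u)).2 hP.ne
  rw [hP.ord] at hJo
  obtain ⟨M, hM⟩ : ∃ M : Matrix (Fin m) (Fin m) K, M = Matrix.of fun a b => u a (J b) := ⟨_, rfl⟩
  have hdet : mnr u J = M.det := by rw [hM]; rfl
  rw [hdet] at hJ hJo
  have h1 : Matrix.vecMul (Matrix.vecMul c M) M.adjugate = M.det • c := by
    rw [Matrix.vecMul_vecMul, Matrix.mul_adjugate, Matrix.vecMul_smul, Matrix.vecMul_one]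
  have h2 : c a * M.det = ∑ b, Matrix.vecMul c M b * M.adjugate b a := by
    have := congrFun h1 a
    rw [Pi.smul_apply, smul_eq_mul, mul_comm] at this
    rw [← this]
    rfl
  refine ge_of_mul v hJ hJo ?_
  rw [h2]
  refine ge_sum v _ _ 0 fun b _ => ?_
  have h3 : ge v 0 (Matrix.vecMul c M b) := by
    have : Matrix.vecMul c M b = ∑ a, c a * u a (J b) := by rw [hM]; rfl
    rw [this]
    exact hc (J b)
  have h4 := h3.mul (ge_adj v M (fun i j => by rw [hM]; exact hP.int i (J j)) b a)
  rwa [add_zero] at h4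

lemma q2_of_q1 (v : DV k K) {ι : Type} {m : ℕ} {u : Fin m → ι → K}
    (h : ∀ c : Fin m → K, (∀ i, ge v 0 (∑ a, c a * u a i)) → ∀ a, ge v 0 (c a))
    (c : Fin m → k) (hc : ∀ i, ge v 1 (∑ a, algebraMap k K (c a) * u a i)) : c = 0 := by
  have hinv : ge v (-1) (v.unif)⁻¹ := by
    right
    have := v.ord_unif_zpow (-1)
    rw [zpow_neg_one] at this
    rw [this]
  have h1 := h (fun a => (v.unif)⁻¹ * algebraMap k K (c a)) fun i => by
    have h2 : ∑ a, (v.unif)⁻¹ * algebraMap k K (c a) * u a i =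
        (v.unif)⁻¹ * ∑ a, algebraMap k K (c a) * u a i := by
      rw [Finset.mul_sum]
      exact Finset.sum_congr rfl fun a _ => mul_assoc _ _ _
    rw [h2]
    have := hinv.mul (hc i)
    rwa [show (-1 : ℤ) + 1 = 0 by norm_num] at this
  funext a
  have h3 : ge v 1 (algebraMap k K (c a)) := by
    have h4 : algebraMap k K (c a) = v.unif * ((v.unif)⁻¹ * algebraMap k K (c a)) := by
      rw [← mul_assoc, mul_inv_cancel₀ v.unif_ne_zero, one_mul]
    have h5 : ge v 1 v.unif := Or.inr (by rw [v.ord_unif])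
    have h6 := h5.mul (h1 a)
    rw [add_zero] at h6
    rw [h4]
    exact h6
  exact const_eq_zero v one_pos h3

lemma prm_of_q2 (hMO : T_MO) (hCBM : T_CBM) [IsAlgClosed k] [CharZero k]
    [Algebra.EssFiniteType k K] (htr : Algebra.trdeg k K = 1) (v : DV k K) {ι : Type} [Finite ι]
    {m : ℕ} {u : Fin m → ι → K} (hu : ∀ a i, ge v 0 (u a i))
    (h : ∀ c : Fin m → k, (∀ i, ge v 1 (∑ a, algebraMap k K (c a) * u a i)) → c = 0) :
    Prm v u := by
  have hr : ∀ a i, ∃ c : k, ge v 1 (u a i - algebraMap k K c) := by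
    intro a i
    refine (rat k K htr v).2 _ ?_
    rcases hu a i with h0 | h0
    · rw [h0, v.ord_zero]
    · exact h0
  choose r hr using hr
  have hli : LinearIndependent k r := by
    rw [Fintype.linearIndependent_iff]
    intro c hc
    have hc0 : c = 0 := by
      apply h
      intro i
      have h1 : ∑ a, c a * r a i = 0 := by
        have := congrFun hc i
        rw [Finset.sum_apply] at this
        exact this
      have h2 : ∑ a, algebraMap k K (c a) * u a i =
          ∑ a, algebraMap k K (c a) * (u a i - algebraMap k K (r a i)) := by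
        have h3 : ∑ a, algebraMap k K (c a) * algebraMap k K (r a i) = 0 := by
          have := congrArg (algebraMap k K) h1
          rw [map_sum, map_zero] at this
          rw [← this]
          exact Finset.sum_congr rfl fun a _ => (map_mul _ _ _).symm
        have h4 : ∑ a, algebraMap k K (c a) * (u a i - algebraMap k K (r a i)) =
            ∑ a, algebraMap k K (c a) * u a i -
              ∑ a, algebraMap k K (c a) * algebraMap k K (r a i) := by
          rw [← Finset.sum_sub_distrib]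
          exact Finset.sum_congr rfl fun a _ => mul_sub _ _ _
        rw [h4, h3, sub_zero]
      rw [h2]
      refine ge_sum v _ _ 1 fun a _ => ?_
      have := (ge_const v (c a)).mul (hr a i)
      rwa [zero_add] at this
    intro a
    rw [hc0, Pi.zero_apply]
  have hne := ((hCBM k m ι r).1).1 hli
  obtain ⟨J, hJ⟩ := Function.ne_iff.1 hne
  have hJ0 : (Matrix.of fun a b : Fin m => r a (J b)).det ≠ 0 := hJ
  have h1 : ge v 1 (mnr u J - algebraMap k K (mnr r J)) := by
    have h2 : algebraMap k K (mnr r J) =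
        (Matrix.of fun a b : Fin m => algebraMap k K (r a (J b))).det := by
      unfold mnr
      rw [RingHom.map_det]
      rfl
    rw [h2]
    exact ge_det_sub v _ _ (fun i j => hu i (J j)) (fun i j => ge_const v _)
      fun i j => hr i (J j)
  have h3 : mnr u J ≠ 0 := by
    intro h0
    rw [h0, zero_sub] at h1
    have h4 := h1.neg
    rw [neg_neg] at h4
    exact hJ0 (const_eq_zero v one_pos h4)
  have h5 : v.ord (mnr u J) ≤ 0 := by
    by_contra hlt
    push Not at hlt
    have h6 : ge v 1 (mnr u J) := Or.inr (by omega)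
    have h7 := h6.sub h1
    rw [sub_sub_cancel] at h7
    exact hJ0 (const_eq_zero v one_pos h7)
  have hne' : mnr u ≠ 0 := fun h0 => h3 (congrFun h0 J)
  obtain ⟨g1, -, g2, -⟩ := (hMO k K v (Fin m → ι) (mnr u)).2 hne'
  refine ⟨hu, hne', ?_⟩
  apply le_antisymm
  · rcases g1 J with h8 | h8
    · exact absurd h8 h3
    · exact h8.trans h5
  · exact g2 0 fun J' => ge_det v _ fun i j => hu i (J' j)

theorem pf_PSA (hMO : T_MO) (hCBM : T_CBM) : T_PSA := by
  intro k K _ _ _ _ _ _ htr v ι _ m u hu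
  have a1 : Prm v u → ∀ c : Fin m → K, (∀ i, ge v 0 (∑ a, c a * u a i)) → ∀ a, ge v 0 (c a) :=
    fun hP c hc a => q1_of_prm hMO v hP c hc a
  have a2 : (∀ c : Fin m → K, (∀ i, ge v 0 (∑ a, c a * u a i)) → ∀ a, ge v 0 (c a)) →
      ∀ c : Fin m → k, (∀ i, ge v 1 (∑ a, algebraMap k K (c a) * u a i)) → c = 0 :=
    fun h c hc => q2_of_q1 v h c hc
  have a3 : (∀ c : Fin m → k, (∀ i, ge v 1 (∑ a, algebraMap k K (c a) * u a i)) → c = 0) →
      Prm v u := fun h => prm_of_q2 hMO hCBM htr v hu h
  exact ⟨⟨a1, fun h => a3 (a2 h)⟩, ⟨fun h => a2 (a1 h), a3⟩⟩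

end Pool.Agent.H1.EE
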